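import Pool.Agent.Helper6W.Greedy

/-!
Every connected graph with `n ≥ 3` vertices and `h` edges joining vertices of equal degree parity has
a closed irregularising walk of length at most `2h + 2(n-1)`.
-/

namespace Pool.Agent.Results.MP_00d8cd_co.GreedyBound

open SimpleGraph Pool.Agent.Helper6W

variable {V : Type} [Fintype V] [DecidableEq V]

/-- The spanning subgraph of `G` whose edges are the edges of `G` that join two vertices whose
degrees in `G` have the same parity. -/
def sameParity (G : SimpleGraph V) [DecidableRel G.Adj] : SimpleGraph V where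
  Adj u v := G.Adj u v ∧ (Even (G.degree u) ↔ Even (G.degree v))
  symm := ⟨fun _ _ h => ⟨h.1.symm, h.2.symm⟩⟩
  loopless := ⟨fun _ h => G.irrefl h.1⟩

instance (G : SimpleGraph V) [DecidableRel G.Adj] : DecidableRel (sameParity G).Adj :=
  fun u v => inferInstanceAs (Decidable (G.Adj u v ∧ (Even (G.degree u) ↔ Even (G.degree v))))

omit [Fintype V] in
lemma exists_parent {G : SimpleGraph V} (hc : G.Connected) (r v : V) :
    ∃ u, v ≠ r → G.Adj v u ∧ G.dist v r = G.dist u r + 1 := by
  by_cases hv : v = r
  · exact ⟨v, fun h => absurd hv h⟩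
  · obtain ⟨p, hp⟩ := hc.exists_walk_length_eq_dist v r
    cases p with
    | nil => exact absurd rfl hv
    | cons h q =>
      rename_i u
      refine ⟨u, fun _ => ⟨h, ?_⟩⟩
      rw [Walk.length_cons] at hp
      have h1 : G.dist u r ≤ q.length := SimpleGraph.dist_le q
      have h2 : G.dist v r ≤ G.dist v u + G.dist u r := hc.dist_triangle
      have h3 : G.dist v u = 1 := SimpleGraph.dist_eq_one_iff_adj.mpr h
      omega

theorem result (V : Type) [Fintype V] [DecidableEq V] (G : SimpleGraph V) [DecidableRel G.Adj]
    (hc : G.Connected) (h3 : 3 ≤ Fintype.card V) :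
    ∃ (x : V) (w : G.Walk x x), Irregularising G w ∧
      w.length ≤ 2 * (sameParity G).edgeFinset.card + 2 * (Fintype.card V - 1) ∧
      (2 * (Fintype.card V - 1) ≤ G.edgeFinset.card → w.length ≤ 3 * G.edgeFinset.card) := by
  obtain ⟨a, r, b, har, hrb, hab⟩ := exists_cherry hc h3
  choose par hpar using exists_parent hc r
  have hℓ : ∀ w, w ≠ r → G.dist w r = G.dist (par w) r + 1 := fun w hw => (hpar w hw).2
  have hpr : ∀ w, G.Adj w r → par w = r := by
    intro w hw
    have h1 := hℓ w hw.ne
    have h2 : G.dist w r = 1 := SimpleGraph.dist_eq_one_iff_adj.mpr hw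
    have h4 : G.dist (par w) r = 0 := by omega
    exact (hc.dist_eq_zero_iff).mp h4
  obtain ⟨s, hs1, hs2, hs3⟩ := greedy_root G r par (sameParity G) (fun v => G.dist v r) hℓ hab
    har.ne hrb.ne.symm (hpr a har) (hpr b hrb.symm)
  let t : Sym2 V → ℕ := fun e => 2 * ∑ x ∈ Finset.univ.erase r, (if e = s(x, par x) then s x else 0)
  have htpos : ∀ x, x ≠ r → 0 < t s(x, par x) := by
    intro x hx
    have h1 : s x ≤ ∑ y ∈ Finset.univ.erase r, (if s(x, par x) = s(y, par y) then s y else 0) := by
      have h2 := Finset.single_le_sum (f := fun y => if s(x, par x) = s(y, par y) then s y else 0)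
        (s := Finset.univ.erase r) (fun _ _ => Nat.zero_le _)
        (Finset.mem_erase.mpr ⟨hx, Finset.mem_univ x⟩)
      simpa using h2
    have h2 := hs1 x
    show 0 < 2 * _
    omega
  have hreach : ∀ S : V → Prop, S r → (∀ a b, S a → G.Adj a b → 0 < t s(a, b) → S b) →
      ∀ v, S v := by
    intro S hS hcl
    have : ∀ n : ℕ, ∀ v, G.dist v r = n → S v := by
      intro n
      induction n with
      | zero =>
        intro v hv
        rw [(hc.dist_eq_zero_iff).mp hv]
        exact hS
      | succ n ih =>
        intro v hv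
        have hvr : v ≠ r := by
          rintro rfl
          rw [SimpleGraph.dist_self] at hv
          omega
        have h1 := hpar v hvr
        refine hcl (par v) v (ih _ (by omega)) h1.1.symm ?_
        rw [Sym2.eq_swap]
        exact htpos v hvr
    exact fun v => this _ v rfl
  obtain ⟨w, hw, hlen⟩ := exists_walk' G t hreach (Walk.nil : G.Walk r r)
    (fun e _ => ⟨by simp, by
      rw [Walk.edges_nil, List.count_nil, Nat.sub_zero]
      exact even_two_mul _⟩)
  have hdeg : ∀ v, degPlus G w v = DD G r par s v := by
    intro v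
    unfold degPlus DD
    have h1 : ∀ u ∈ G.neighborFinset v, 1 + w.edges.count s(v, u)
        = 1 + 2 * ∑ x ∈ Finset.univ.erase r, s x * (if s(v, u) = s(x, par x) then 1 else 0) := by
      intro u hu
      have hvu : G.Adj v u := by simpa using hu
      rw [hw s(v, u) (by simpa using hvu)]
      simp only [t]
      congr 2
      refine Finset.sum_congr rfl ?_
      intro x _
      split_ifs <;> simp
    rw [Finset.sum_congr rfl h1, Finset.sum_add_distrib, ← Finset.card_eq_sum_ones,
      G.card_neighborFinset_eq_degree, ← Finset.mul_sum, Finset.sum_comm]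
    congr 2
    have h2 : ∀ x ∈ Finset.univ.erase r,
        ∑ u ∈ G.neighborFinset v, s x * (if s(v, u) = s(x, par x) then 1 else 0)
        = (if v = x then s x else 0) + (if par x = v then s x else 0) := by
      intro x hx
      rw [← Finset.mul_sum, edge_sum G (hpar x (Finset.ne_of_mem_erase hx)).1 v, mul_add]
      congr 1
      · split_ifs <;> simp
      · by_cases h : v = par x
        · rw [if_pos h, if_pos h.symm, mul_one]
        · rw [if_neg h, if_neg (fun h' => h h'.symm), mul_zero]
    rw [Finset.sum_congr rfl h2, Finset.sum_add_distrib]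
    congr 1
    · rw [Finset.sum_ite_eq]
      by_cases h : v = r
      · simp [h]
      · simp [h]
    · rw [← Finset.sum_filter]
      refine Finset.sum_congr ?_ (fun _ _ => rfl)
      ext x
      simp
  have hlen2 : w.length = 2 * ∑ x ∈ Finset.univ.erase r, s x := by
    rw [hlen]
    simp only [t]
    rw [← Finset.mul_sum, Finset.sum_comm]
    congr 1
    refine Finset.sum_congr rfl ?_
    intro x hx
    rw [Finset.sum_ite_eq', if_pos]
    simpa using (hpar x (Finset.ne_of_mem_erase hx)).1
  have hsum : ∑ x ∈ Finset.univ.erase r, s x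
      = ∑ x ∈ Finset.univ.erase r, (s x - 1) + (Fintype.card V - 1) := by
    have h1 : Fintype.card V - 1 = ∑ x ∈ (Finset.univ : Finset V).erase r, 1 := by
      rw [← Finset.card_eq_sum_ones, Finset.card_erase_of_mem (Finset.mem_univ r), Finset.card_univ]
    rw [h1, ← Finset.sum_add_distrib]
    refine Finset.sum_congr rfl ?_
    intro x _
    have := hs1 x
    omega
  have hKG : (sameParity G).edgeFinset.card ≤ G.edgeFinset.card := by
    apply Finset.card_le_card
    rw [SimpleGraph.edgeFinset_subset_edgeFinset]
    intro u v h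
    exact h.1
  refine ⟨r, w, ?_, ?_, ?_⟩
  · intro u v huv
    rw [hdeg u, hdeg v]
    by_cases hp : (Even (G.degree u) ↔ Even (G.degree v))
    · exact hs2 u v ⟨huv, hp⟩
    · intro h
      apply hp
      unfold DD at h
      rw [Nat.even_iff, Nat.even_iff]
      omega
  · rw [hlen2, hsum]
    omega
  · intro hm
    rw [hlen2, hsum]
    omega

end Pool.Agent.Results.MP_00d8cd_co.GreedyBound
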