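import Pool.Agent.Helper6W.Walk

/-!
Irregularising walks of length at most `3m`: every connected bipartite graph on at least three
vertices, and many connected graphs in which the edges joining vertices of equal degree parity form
a bipartite graph.
-/

namespace Pool.Agent.Results.MP_00d8cd_co.SameParityBipartite

open SimpleGraph Pool.Agent.Helper6W

variable {V : Type} [Fintype V] [DecidableEq V]

lemma tjoin (G : SimpleGraph V) [DecidableRel G.Adj] (hc : G.Connected)
    (b : V → ZMod 2) (hb : ∑ v, b v = 0) :
    ∃ h : Sym2 V → ZMod 2, ∀ v, ∑ u ∈ G.neighborFinset v, h s(v, u) = b v := by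
  let S : Submodule (ZMod 2) (V → ZMod 2) :=
    { carrier := {b | ∃ h : Sym2 V → ZMod 2, ∀ v, ∑ u ∈ G.neighborFinset v, h s(v, u) = b v}
      add_mem' := by
        rintro p q ⟨h, hh⟩ ⟨k, hk⟩
        exact ⟨fun e => h e + k e, fun v => by
          rw [Finset.sum_add_distrib, hh, hk]; rfl⟩
      zero_mem' := ⟨fun _ => 0, fun v => by simp⟩
      smul_mem' := by
        rintro r p ⟨h, hh⟩
        exact ⟨fun e => r * h e, fun v => by
          rw [← Finset.mul_sum, hh]; rfl⟩ }
  have hadj : ∀ a c, G.Adj a c → (Pi.single a 1 + Pi.single c 1 : V → ZMod 2) ∈ S := by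
    intro a c hac
    refine ⟨fun e => if e = s(a, c) then 1 else 0, fun v => ?_⟩
    have := edge_sum G hac v
    have h2 := congrArg (Nat.cast : ℕ → ZMod 2) this
    push_cast at h2
    rw [h2]
    simp [Pi.single_apply]
  obtain ⟨r⟩ := hc.nonempty
  have hall : ∀ v, (Pi.single r 1 + Pi.single v 1 : V → ZMod 2) ∈ S := by
    intro v
    refine conn_closed hc (fun v => (Pi.single r 1 + Pi.single v 1 : V → ZMod 2) ∈ S) (a := r)
      ?_ ?_ v
    · have : (Pi.single r 1 + Pi.single r 1 : V → ZMod 2) = 0 := by
        funext v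
        simp [CharTwo.add_self_eq_zero]
      simp only [this]
      exact S.zero_mem
    · intro u v hu huv
      have h1 := S.add_mem hu (hadj u v huv)
      have h2 : (Pi.single r 1 + Pi.single u 1 + (Pi.single u 1 + Pi.single v 1) : V → ZMod 2)
          = Pi.single r 1 + Pi.single v 1 := by
        funext i
        simp only [Pi.add_apply]
        have := CharTwo.add_self_eq_zero ((Pi.single u (1 : ZMod 2) : V → ZMod 2) i)
        linear_combination this
      rw [h2] at h1
      exact h1
  have hbS : b ∈ S := by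
    have h1 : b = ∑ v, b v • (Pi.single r 1 + Pi.single v 1 : V → ZMod 2) := by
      funext i
      rw [Finset.sum_apply]
      simp only [Pi.smul_apply, Pi.add_apply, smul_eq_mul, mul_add, Finset.sum_add_distrib]
      rw [← Finset.sum_mul, hb, zero_mul, zero_add]
      simp [Pi.single_apply]
    rw [h1]
    exact S.sum_mem (fun v _ => S.smul_mem _ (hall v))
  exact hbS

lemma core (G : SimpleGraph V) [DecidableRel G.Adj] (hc : G.Connected) (c : V → ZMod 2)
    {x y : V} (w0 : G.Walk x y) (hk : ∀ e, w0.edges.count e ≤ 1) (κ : V → ℕ)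
    (hκ : ∀ v, ∑ u ∈ G.neighborFinset v, w0.edges.count s(v, u) = κ v)
    (hsum : ∑ v, (c v + (((3 * G.degree v - κ v) / 2 : ℕ) : ZMod 2)) = 0)
    (hprop : ∀ u v, G.Adj u v → c u ≠ c v ∨
      (3 * G.degree u - κ u) % 2 ≠ (3 * G.degree v - κ v) % 2) :
    ∃ w : G.Walk x y, w.length ≤ 3 * G.edgeFinset.card ∧ Irregularising G w := by
  obtain ⟨h, hh⟩ := tjoin G hc _ hsum
  have hval : ∀ e, (h e).val ≤ 1 := fun e => by
    have := ZMod.val_lt (h e)
    omega
  have hκle : ∀ v, κ v ≤ G.degree v := by
    intro v
    rw [← hκ v, ← G.card_neighborFinset_eq_degree, Finset.card_eq_sum_ones]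
    exact Finset.sum_le_sum (fun u _ => hk _)
  -- multiplicities
  obtain ⟨w1, hw1, hl1⟩ := exists_walk G hc (fun e => 2 - w0.edges.count e + 2 * (h e).val)
    (fun e _ => by have := hk e; show 0 < _; omega) w0
    (fun e _ => by
      have h1 := hk e
      have h2 := hval e
      refine ⟨by show _ ≤ _; omega, ⟨1 - w0.edges.count e + (h e).val, ?_⟩⟩
      show _ - _ = _
      omega)
  obtain ⟨w2, hw2, hl2⟩ := exists_walk G hc (fun e => 6 - (2 - w0.edges.count e + 2 * (h e).val))
    (fun e _ => by have := hk e; have := hval e; show 0 < _; omega) w0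
    (fun e _ => by
      have h1 := hk e
      have h2 := hval e
      refine ⟨by show _ ≤ _; omega, ⟨2 - (h e).val, ?_⟩⟩
      show _ - _ = _
      omega)
  have hD1 : ∀ v, degPlus G w1 v + κ v
      = 3 * G.degree v + 2 * ∑ u ∈ G.neighborFinset v, (h s(v, u)).val := by
    intro v
    rw [← hκ v, degPlus, ← Finset.sum_add_distrib, ← G.card_neighborFinset_eq_degree,
      Finset.card_eq_sum_ones, Finset.mul_sum, Finset.mul_sum, ← Finset.sum_add_distrib]
    refine Finset.sum_congr rfl ?_
    intro u hu
    have hadj : G.Adj v u := by simpa using hu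
    rw [hw1 s(v, u) (by simpa using hadj)]
    have := hk s(v, u)
    show 1 + (2 - _ + _) + _ = _
    omega
  have hD2 : ∀ v, degPlus G w2 v + degPlus G w1 v = 8 * G.degree v := by
    intro v
    rw [degPlus, degPlus, ← Finset.sum_add_distrib, ← G.card_neighborFinset_eq_degree,
      Finset.card_eq_sum_ones, Finset.mul_sum]
    refine Finset.sum_congr rfl ?_
    intro u hu
    have hadj : G.Adj v u := by simpa using hu
    rw [hw1 s(v, u) (by simpa using hadj), hw2 s(v, u) (by simpa using hadj)]
    have := hk s(v, u)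
    have := hval s(v, u)
    show (1 + (6 - (2 - _ + _))) + (1 + (2 - _ + _)) = _
    omega
  have hdig : ∀ v, ((degPlus G w1 v / 2 : ℕ) : ZMod 2) = c v := by
    intro v
    have h1 := hD1 v
    have h2 := hκle v
    have h3 : degPlus G w1 v = (3 * G.degree v - κ v)
        + 2 * ∑ u ∈ G.neighborFinset v, (h s(v, u)).val := by omega
    have h4 : degPlus G w1 v / 2 = (3 * G.degree v - κ v) / 2
        + ∑ u ∈ G.neighborFinset v, (h s(v, u)).val := by omega
    rw [h4]
    push_cast
    have h5 : (∑ u ∈ G.neighborFinset v, (((h s(v, u)).val : ℕ) : ZMod 2))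
        = c v + (((3 * G.degree v - κ v) / 2 : ℕ) : ZMod 2) := by
      rw [← hh v]
      refine Finset.sum_congr rfl ?_
      intro u _
      exact ZMod.natCast_zmod_val _
    rw [h5]
    have := CharTwo.add_self_eq_zero ((((3 * G.degree v - κ v) / 2 : ℕ)) : ZMod 2)
    linear_combination this
  have hpar : ∀ v, degPlus G w1 v % 2 = (3 * G.degree v - κ v) % 2 := by
    intro v
    have h1 := hD1 v
    have h2 := hκle v
    omega
  have hcontra : ∀ u v, G.Adj u v →
      ∀ p q : ℕ, degPlus G w1 u + 8 * p = degPlus G w1 v + 8 * q → False := by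
    intro u v huv p q hpq
    have h1 : degPlus G w1 u / 2 + 4 * p = degPlus G w1 v / 2 + 4 * q := by omega
    have h2 := congrArg (Nat.cast : ℕ → ZMod 2) h1
    push_cast at h2
    have h4 : (4 : ZMod 2) = 0 := by decide
    rw [hdig u, hdig v, h4, zero_mul, zero_mul, add_zero, add_zero] at h2
    rcases hprop u v huv with h | h
    · exact h h2
    · apply h
      rw [← hpar u, ← hpar v]
      omega
  by_cases hlen : w1.length ≤ 3 * G.edgeFinset.card
  · refine ⟨w1, hlen, ?_⟩
    intro u v huv heq
    exact hcontra u v huv 0 0 (by omega)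
  · refine ⟨w2, ?_, ?_⟩
    · have h1 : w1.length + w2.length = 6 * G.edgeFinset.card := by
        rw [hl1, hl2, ← Finset.sum_add_distrib, Finset.card_eq_sum_ones, Finset.mul_sum]
        refine Finset.sum_congr rfl ?_
        intro e _
        have := hk e
        have := hval e
        show (2 - _ + _) + (6 - (2 - _ + _)) = _
        omega
      omega
    · intro u v huv heq
      have h1 := hD2 u
      have h2 := hD2 v
      exact hcontra u v huv (G.degree v) (G.degree u) (by omega)

lemma par_z (n : ℕ) (h : 2 ≤ n) : (n / 2 + (n - 1) / 2 + (n - 1) / 2 + (n - 2) / 2) % 2 = 1 := by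
  have h1 : (n - 2) / 2 = n / 2 - 1 := by omega
  have h2 : 1 ≤ n / 2 := by omega
  rw [h1]
  generalize n / 2 = a at *
  generalize (n - 1) / 2 = b at *
  omega

lemma par_x (n : ℕ) : (n / 2 + (n - 1) / 2 + n / 2 + (n - 1) / 2) % 2 = 0 := by
  generalize n / 2 = a at *
  generalize (n - 1) / 2 = b at *
  omega

lemma par_y (n : ℕ) : (n / 2 + n / 2 + (n - 1) / 2 + (n - 1) / 2) % 2 = 0 := by
  generalize n / 2 = a at *
  generalize (n - 1) / 2 = b at *
  omega

lemma par_o (n : ℕ) : (n / 2 + n / 2 + n / 2 + n / 2) % 2 = 0 := by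
  generalize n / 2 = a at *
  omega

/-- Irregularising walks of length at most `3m`. Let `G` be a finite connected graph such that the
edges joining two vertices whose degrees have the same parity form a bipartite graph (`c` is a proper
2-colouring of these edges). If `G` has odd order, or if `G` itself is bipartite and has at least
three vertices, then `G` has an irregularising walk of length at most three times its number of
edges. -/
theorem result (V : Type) [Fintype V] [DecidableEq V] (G : SimpleGraph V) [DecidableRel G.Adj]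
    (hc : G.Connected)
    (hpar : ∃ c : V → Bool, ∀ u v, G.Adj u v → (Even (G.degree u) ↔ Even (G.degree v)) → c u ≠ c v)
    (hcase : Odd (Fintype.card V) ∨ (G.Colorable 2 ∧ 3 ≤ Fintype.card V)) :
    ∃ (x y : V) (w : G.Walk x y), w.length ≤ 3 * G.edgeFinset.card ∧ Irregularising G w := by
  rcases hcase with hodd | ⟨hbip, h3⟩
  · obtain ⟨c, hcp⟩ := hpar
    obtain ⟨r⟩ := hc.nonempty
    let c0 : V → ZMod 2 := fun v => if c v then 1 else 0
    have hc0 : ∀ u v, c u ≠ c v → c0 u ≠ c0 v := by
      intro u v h
      simp only [c0]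
      cases hu : c u <;> cases hv : c v <;> simp_all
    have hmain : ∀ s : ZMod 2, ∑ v, ((c0 v + s) + (((3 * G.degree v - 0) / 2 : ℕ) : ZMod 2)) = 0 →
        ∃ (x y : V) (w : G.Walk x y), w.length ≤ 3 * G.edgeFinset.card ∧ Irregularising G w := by
      intro s hs
      refine ⟨r, r, core G hc (fun v => c0 v + s) (Walk.nil : G.Walk r r) (by simp) (fun _ => 0)
        (by simp) hs ?_⟩
      intro u v huv
      by_cases hp : (Even (G.degree u) ↔ Even (G.degree v))
      · left
        intro h
        exact hc0 u v (hcp u v huv hp) (add_right_cancel h)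
      · right
        rw [Nat.even_iff, Nat.even_iff] at hp
        show (3 * G.degree u - 0) % 2 ≠ (3 * G.degree v - 0) % 2
        omega
    have hz : ∀ a : ZMod 2, a = 0 ∨ a = 1 := by decide
    rcases hz (∑ v, ((c0 v + 0) + (((3 * G.degree v - 0) / 2 : ℕ) : ZMod 2))) with h | h
    · exact hmain 0 h
    · refine hmain 1 ?_
      have h1 : ∑ v, ((c0 v + 1) + (((3 * G.degree v - 0) / 2 : ℕ) : ZMod 2))
          = ∑ v, ((c0 v + 0) + (((3 * G.degree v - 0) / 2 : ℕ) : ZMod 2)) + ∑ _v : V, 1 := by
        rw [← Finset.sum_add_distrib]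
        refine Finset.sum_congr rfl ?_
        intro v _
        ring
      have h2 : (∑ _v : V, (1 : ZMod 2)) = 1 := by
        rw [Finset.sum_const, Finset.card_univ, nsmul_eq_mul, mul_one]
        exact (ZMod.natCast_eq_one_iff_odd).mpr hodd
      rw [h1, h, h2]
      decide
  · obtain ⟨C⟩ := hbip
    let c0 : V → ZMod 2 := fun v => ((C v : Fin 2) : ℕ)
    have hc0 : ∀ u v, G.Adj u v → c0 u ≠ c0 v := by
      intro u v huv h
      have h1 := C.valid huv
      apply h1
      have h2 : ∀ a b : Fin 2, (((a : ℕ) : ZMod 2)) = ((b : ℕ) : ZMod 2) → a = b := by decide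
      exact h2 _ _ h
    obtain ⟨x, z, y, hxz, hzy, hxy⟩ := exists_cherry hc h3
    have hne1 : x ≠ z := hxz.ne
    have hne2 : z ≠ y := hzy.ne
    have hes : s(x, z) ≠ s(z, y) := by
      simp only [ne_eq, Sym2.eq_iff]
      rintro (⟨h, _⟩ | ⟨h, _⟩)
      · exact hne1 h
      · exact hxy h
    have hprop : ∀ κ : V → ℕ, ∀ u v, G.Adj u v → c0 u ≠ c0 v ∨
        (3 * G.degree u - κ u) % 2 ≠ (3 * G.degree v - κ v) % 2 :=
      fun κ u v huv => Or.inl (hc0 u v huv)
    let κ1 : V → ℕ := fun v => (if v = x then 1 else 0) + (if v = z then 1 else 0)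
    let κ2 : V → ℕ := fun v => (if v = z then 1 else 0) + (if v = y then 1 else 0)
    let κ3 : V → ℕ := fun v => κ1 v + κ2 v
    let S : (V → ℕ) → ZMod 2 := fun κ => ∑ v, (c0 v + (((3 * G.degree v - κ v) / 2 : ℕ) : ZMod 2))
    have hS : S (fun _ => 0) + S κ1 + S κ2 + S κ3 = 1 := by
      simp only [S]
      rw [← Finset.sum_add_distrib, ← Finset.sum_add_distrib, ← Finset.sum_add_distrib]
      have hterm : ∀ v ∈ (Finset.univ : Finset V),
          (c0 v + (((3 * G.degree v - 0) / 2 : ℕ) : ZMod 2)
          + (c0 v + (((3 * G.degree v - κ1 v) / 2 : ℕ) : ZMod 2))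
          + (c0 v + (((3 * G.degree v - κ2 v) / 2 : ℕ) : ZMod 2))
          + (c0 v + (((3 * G.degree v - κ3 v) / 2 : ℕ) : ZMod 2)))
          = if v = z then 1 else 0 := by
        intro v _
        have h4 : (4 : ZMod 2) = 0 := by decide
        have h5 : (c0 v + (((3 * G.degree v - 0) / 2 : ℕ) : ZMod 2)
          + (c0 v + (((3 * G.degree v - κ1 v) / 2 : ℕ) : ZMod 2))
          + (c0 v + (((3 * G.degree v - κ2 v) / 2 : ℕ) : ZMod 2))
          + (c0 v + (((3 * G.degree v - κ3 v) / 2 : ℕ) : ZMod 2)))
          = (((3 * G.degree v - 0) / 2 + (3 * G.degree v - κ1 v) / 2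
              + (3 * G.degree v - κ2 v) / 2 + (3 * G.degree v - κ3 v) / 2 : ℕ) : ZMod 2) := by
          push_cast
          linear_combination (c0 v) * h4
        rw [h5]
        by_cases hvz : v = z
        · subst hvz
          have hd : 0 < G.degree v := by
            rw [G.degree_pos_iff_exists_adj]
            exact ⟨y, hzy⟩
          rw [if_pos rfl]
          refine (ZMod.natCast_eq_one_iff_odd).mpr ?_
          simp only [κ3, κ1, κ2, if_pos, if_neg hne1.symm, if_neg hne2, Nat.zero_add,
            Nat.add_zero, Nat.sub_zero]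
          rw [Nat.odd_iff]
          exact par_z _ (by omega)
        · rw [if_neg hvz]
          refine (ZMod.natCast_eq_zero_iff_even).mpr ?_
          rw [Nat.even_iff]
          simp only [κ3, κ1, κ2, if_neg hvz]
          by_cases hvx : v = x
          · have hvy : v ≠ y := fun h => hxy (hvx.symm.trans h)
            simp only [if_pos hvx, if_neg hvy, Nat.add_zero, Nat.sub_zero]
            exact par_x _
          · by_cases hvy : v = y
            · simp only [if_neg hvx, if_pos hvy, Nat.zero_add, Nat.add_zero, Nat.sub_zero]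
              exact par_y _
            · simp only [if_neg hvx, if_neg hvy, Nat.add_zero, Nat.sub_zero]
              exact par_o _
      rw [Finset.sum_congr rfl hterm]
      simp
    have hz : ∀ a b c d : ZMod 2, a + b + c + d = 1 → a = 0 ∨ b = 0 ∨ c = 0 ∨ d = 0 := by decide
    rcases hz _ _ _ _ hS with h | h | h | h
    · exact ⟨x, x, core G hc c0 (Walk.nil : G.Walk x x) (by simp) (fun _ => 0) (by simp) h
        (hprop _)⟩
    · refine ⟨x, z, core G hc c0 (Walk.cons hxz Walk.nil) ?_ κ1 ?_ h (hprop _)⟩
      · intro e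
        rw [Walk.edges_cons, Walk.edges_nil, List.count_cons, List.count_nil]
        split_ifs <;> omega
      · intro v
        show _ = (if v = x then 1 else 0) + (if v = z then 1 else 0)
        rw [← edge_sum G hxz v]
        refine Finset.sum_congr rfl ?_
        intro u _
        rw [Walk.edges_cons, Walk.edges_nil, List.count_cons, List.count_nil, zero_add]
        simp only [beq_iff_eq, @eq_comm _ s(x, z)]
    · refine ⟨z, y, core G hc c0 (Walk.cons hzy Walk.nil) ?_ κ2 ?_ h (hprop _)⟩
      · intro e
        rw [Walk.edges_cons, Walk.edges_nil, List.count_cons, List.count_nil]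
        split_ifs <;> omega
      · intro v
        show _ = (if v = z then 1 else 0) + (if v = y then 1 else 0)
        rw [← edge_sum G hzy v]
        refine Finset.sum_congr rfl ?_
        intro u _
        rw [Walk.edges_cons, Walk.edges_nil, List.count_cons, List.count_nil, zero_add]
        simp only [beq_iff_eq, @eq_comm _ s(z, y)]
    · refine ⟨x, y, core G hc c0 (Walk.cons hxz (Walk.cons hzy Walk.nil)) ?_ κ3 ?_ h (hprop _)⟩
      · intro e
        rw [Walk.edges_cons, Walk.edges_cons, Walk.edges_nil, List.count_cons, List.count_cons,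
          List.count_nil]
        by_cases h1 : s(x, z) = e
        · have h2 : s(z, y) ≠ e := fun h => hes (h1.trans h.symm)
          simp [h1, h2]
        · simp only [beq_iff_eq, h1, if_false]
          split_ifs <;> omega
      · intro v
        show _ = κ1 v + κ2 v
        simp only [κ1, κ2]
        rw [← edge_sum G hxz v, ← edge_sum G hzy v, ← Finset.sum_add_distrib]
        refine Finset.sum_congr rfl ?_
        intro u _
        rw [Walk.edges_cons, Walk.edges_cons, Walk.edges_nil, List.count_cons, List.count_cons,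
          List.count_nil, zero_add]
        simp only [beq_iff_eq, @eq_comm _ s(x, z), @eq_comm _ s(z, y)]
        rw [add_comm]

end Pool.Agent.Results.MP_00d8cd_co.SameParityBipartite
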