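import Pool.Agent.Results.MP_00d8cd_co.GreedyBound
import Pool.Agent.Helper6W.LevelThm

/-!
Every nice connected graph with `m` edges has an irregularising walk of length at most `7m/2`.
-/

namespace Pool.Agent.Results.MP_00d8cd_co.SevenHalves

open SimpleGraph Pool.Agent.Helper6W

theorem result (V : Type) [Fintype V] [DecidableEq V] (G : SimpleGraph V) [DecidableRel G.Adj]
    (hc : G.Connected) (h3 : 3 ≤ Fintype.card V) :
    ∃ (x y : V) (w : G.Walk x y), Irregularising G w ∧
      2 * w.length ≤ 7 * G.edgeFinset.card := by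
  obtain ⟨a, r, b, har, hrb, hab⟩ := exists_cherry hc h3
  obtain ⟨p, q, w2, hw2, hl2⟩ := LevelThm.level_aux G hc har hrb hab
  have hq := LevelThm.card_level G hc r
  obtain ⟨x', w1', hw1', hl1', -⟩ := GreedyBound.result V G hc h3
  have hKG : (GreedyBound.sameParity G).edgeFinset.card ≤ G.edgeFinset.card := by
    apply Finset.card_le_card
    rw [SimpleGraph.edgeFinset_subset_edgeFinset]
    intro u v h
    exact h.1
  by_cases hcase : 4 * (Fintype.card V - 1) ≤ 3 * G.edgeFinset.card
  · exact ⟨x', x', w1', hw1', by omega⟩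
  · exact ⟨p, q, w2, hw2, by omega⟩

end Pool.Agent.Results.MP_00d8cd_co.SevenHalves
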