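import Pool.Agent.Helper6W.Walk

/-!
The constant three cannot be lowered: spiders with many long legs need irregularising walks of length
at least `(3 - ε) m`.
-/

namespace Pool.Agent.Results.MP_00d8cd_co.ThreeIsSharp

open SimpleGraph Pool.Agent.Helper6W

lemma cross {V : Type} [DecidableEq V] {G : SimpleGraph V} (S : V → Prop) (e : Sym2 V)
    (h1 : ∀ u v, G.Adj u v → S u → ¬ S v → s(u, v) = e)
    (h2 : ∀ u v, G.Adj u v → s(u, v) = e → (S u ↔ ¬ S v)) {x y : V} (w : G.Walk x y) :
    Even (w.edges.count e) ↔ (S x ↔ S y) := by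
  induction w with
  | nil => simp
  | @cons a b c h p ih =>
    rw [Walk.edges_cons, List.count_cons]
    by_cases hab : s(a, b) = e
    · have := h2 a b h hab
      rw [if_pos (by simpa using hab), Nat.even_add_one, ih]
      tauto
    · rw [if_neg (by simpa using hab), add_zero, ih]
      have h3 : S a ↔ S b := by
        constructor
        · intro ha
          by_contra hb
          exact hab (h1 a b h ha hb)
        · intro hb
          by_contra ha
          exact hab (by rw [Sym2.eq_swap]; exact h1 b a h.symm hb ha)
      rw [h3]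

lemma noenter {V : Type} [DecidableEq V] {G : SimpleGraph V} (S : V → Prop) (e : Sym2 V)
    (h1 : ∀ u v, G.Adj u v → S u → ¬ S v → s(u, v) = e) {x y : V} (w : G.Walk x y)
    (hx : ¬ S x) (h0 : w.edges.count e = 0) : ∀ v ∈ w.support, ¬ S v := by
  induction w with
  | nil => simpa using hx
  | @cons a b c h p ih =>
    rw [Walk.edges_cons, List.count_cons] at h0
    have hab : ¬ s(a, b) = e := by
      intro hab
      rw [if_pos (by simpa using hab)] at h0
      omega
    have h0' : p.edges.count e = 0 := by omega
    have hb : ¬ S b := fun hb => hab (by rw [Sym2.eq_swap]; exact h1 b a h.symm hb hx)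
    intro v hv
    rw [Walk.support_cons, List.mem_cons] at hv
    rcases hv with rfl | hv
    · exact hx
    · exact ih hb h0' v hv

lemma sum_count_le {α : Type} [DecidableEq α] (F : Finset α) (l : List α) :
    ∑ e ∈ F, l.count e ≤ l.length := by
  induction l with
  | nil => simp
  | cons a l ih =>
    have h1 : ∀ e ∈ F, (a :: l).count e = l.count e + (if a = e then 1 else 0) := by
      intro e _
      rw [List.count_cons]
      simp
    rw [Finset.sum_congr rfl h1, Finset.sum_add_distrib, Finset.sum_ite_eq, List.length_cons]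
    split_ifs <;> omega

/-- The relation generating the spider: the centre `none` is joined to the first vertex of each leg,
and each vertex of a leg to the next one. -/
def spiderRel (L k : ℕ) : Option (Fin L × Fin k) → Option (Fin L × Fin k) → Prop
  | none, some (_, i) => i.val = 0
  | some (a, i), some (b, j) => a = b ∧ i.val + 1 = j.val
  | _, none => False

/-- The spider with `L` legs of length `k`. -/
def spider (L k : ℕ) : SimpleGraph (Option (Fin L × Fin k)) := SimpleGraph.fromRel (spiderRel L k)

lemma adj_none {L k : ℕ} {a : Fin L} {i : Fin k} :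
    (spider L k).Adj (some (a, i)) none ↔ i.val = 0 := by
  simp [spider, SimpleGraph.fromRel_adj, spiderRel]

lemma adj_some {L k : ℕ} {a b : Fin L} {i j : Fin k} :
    (spider L k).Adj (some (a, i)) (some (b, j)) ↔
      a = b ∧ (i.val + 1 = j.val ∨ j.val + 1 = i.val) := by
  simp only [spider, SimpleGraph.fromRel_adj, spiderRel, ne_eq, Option.some.injEq, Prod.mk.injEq]
  constructor
  · rintro ⟨_, ⟨h, h'⟩ | ⟨h, h'⟩⟩
    · exact ⟨h, Or.inl h'⟩
    · exact ⟨h.symm, Or.inr h'⟩
  · rintro ⟨rfl, h | h⟩
    · exact ⟨fun hh => by have := congrArg Fin.val hh.2; omega, Or.inl ⟨rfl, h⟩⟩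
    · exact ⟨fun hh => by have := congrArg Fin.val hh.2; omega, Or.inr ⟨rfl, h⟩⟩

/-- The vertex at distance `i` from the centre on leg `a`. -/
def P {L k : ℕ} (a : Fin L) : ℕ → Option (Fin L × Fin k)
  | 0 => none
  | (i + 1) => if h : i < k then some (a, ⟨i, h⟩) else none

lemma P_succ {L k : ℕ} (a : Fin L) {i : ℕ} (h : i < k) :
    (P a (i + 1) : Option (Fin L × Fin k)) = some (a, ⟨i, h⟩) := by
  simp [P, h]

lemma P_adj {L k : ℕ} (a : Fin L) {i : ℕ} (h : i < k) :
    (spider L k).Adj (P a (i + 1)) (P a i) := by
  rw [P_succ a h]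
  cases i with
  | zero => exact adj_none.mpr rfl
  | succ i =>
    rw [P_succ a (by omega)]
    exact adj_some.mpr ⟨rfl, Or.inr rfl⟩

/-- The far part of leg `a`. -/
def far {L k : ℕ} (a : Fin L) (i : ℕ) (v : Option (Fin L × Fin k)) : Prop :=
  ∃ j : Fin k, i ≤ j.val ∧ v = some (a, j)

lemma far_cross {L k : ℕ} (a : Fin L) {i : ℕ} (hi : i < k) (u v : Option (Fin L × Fin k))
    (huv : (spider L k).Adj u v) (hu : far a i u) (hv : ¬ far a i v) :
    s(u, v) = s(P a (i + 1), P a i) := by
  obtain ⟨j, hj, rfl⟩ := hu
  cases v with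
  | none =>
    have h0 := adj_none.mp huv
    have hi0 : i = 0 := by omega
    subst hi0
    rw [P_succ a hi]
    have : j = ⟨0, hi⟩ := Fin.ext h0
    rw [this]
    rfl
  | some v =>
    obtain ⟨b, l⟩ := v
    obtain ⟨rfl, h⟩ := adj_some.mp huv
    have hl : ¬ i ≤ l.val := fun h' => hv ⟨l, h', rfl⟩
    have h1 : l.val + 1 = j.val := by omega
    have h2 : j.val = i := by omega
    obtain ⟨i', rfl⟩ : ∃ i', i = i' + 1 := ⟨i - 1, by omega⟩
    rw [P_succ a hi, P_succ a (by omega)]
    have e1 : j = ⟨i' + 1, hi⟩ := Fin.ext h2
    have e2 : l = ⟨i', by omega⟩ := Fin.ext (by simp; omega)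
    rw [e1, e2]

lemma far_iff {L k : ℕ} (a : Fin L) {i : ℕ} (hi : i < k) (u v : Option (Fin L × Fin k))
    (h : s(u, v) = s(P a (i + 1), P a i)) : (far a i u ↔ ¬ far a i v) := by
  have h1 : far a i (P a (i + 1) : Option (Fin L × Fin k)) := ⟨⟨i, hi⟩, le_rfl, P_succ a hi⟩
  have h2 : ¬ far a i (P a i : Option (Fin L × Fin k)) := by
    rintro ⟨j, hj, he⟩
    cases i with
    | zero => simp [P] at he
    | succ i =>
      rw [P_succ a (by omega)] at he
      have := congrArg (fun o => o.map (fun p => p.2.val)) he
      simp at this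
      omega
  rw [Sym2.eq_iff] at h
  rcases h with ⟨rfl, rfl⟩ | ⟨rfl, rfl⟩
  · exact ⟨fun _ => h2, fun _ => h1⟩
  · exact ⟨fun h => absurd h h2, fun h => absurd h1 h⟩

lemma conn {L k : ℕ} : (spider L k).Connected := by
  have hr : ∀ (a : Fin L) (i : ℕ), i ≤ k → (spider L k).Reachable none (P a i) := by
    intro a i
    induction i with
    | zero => intro _; exact SimpleGraph.Reachable.refl _
    | succ i ih =>
      intro hi
      exact (ih (by omega)).trans (P_adj a (by omega)).symm.reachable
  have hn : ∀ v, (spider L k).Reachable none v := by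
    intro v
    cases v with
    | none => exact SimpleGraph.Reachable.refl _
    | some v =>
      obtain ⟨a, i⟩ := v
      have := hr a (i.val + 1) i.isLt
      rwa [P_succ a i.isLt] at this
  have : Nonempty (Option (Fin L × Fin k)) := ⟨none⟩
  exact ⟨fun u v => (hn u).symm.trans (hn v)⟩

lemma leg_bound {L k : ℕ} [DecidableRel (spider L k).Adj] {x y : Option (Fin L × Fin k)}
    (w : (spider L k).Walk x y) (hw : Irregularising (spider L k) w) (a : Fin L)
    (hx : ¬ far a 0 x) (hy : ¬ far a 0 y) (s : ℕ) (hk : k = 4 * s + 2) :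
    12 * s ≤ ∑ i ∈ Finset.range k, w.edges.count s(P a (i + 1), P a i) := by
  set T : ℕ → ℕ := fun i => w.edges.count s(P a (i + 1), P a i) with hT
  have hfar : ∀ i v, far a i v → far (k := k) a 0 v := by
    rintro i v ⟨j, _, h⟩
    exact ⟨j, Nat.zero_le _, h⟩
  have heven : ∀ i, i < k → Even (T i) := by
    intro i hi
    rw [hT]
    refine (cross (far a i) _ (fun u v h1 h2 h3 => far_cross a hi u v h1 h2 h3)
      (fun u v _ h => far_iff a hi u v h) w).mpr ?_
    exact ⟨fun h => absurd (hfar _ _ h) hx, fun h => absurd (hfar _ _ h) hy⟩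
  have hzero : ∀ i j, i < j → j < k → T i = 0 → T j = 0 := by
    intro i j hij hj h0
    by_contra hne
    have hmem : s(P a (j + 1), P a j) ∈ w.edges := List.count_pos_iff.mp (Nat.pos_of_ne_zero hne)
    have h1 := w.fst_mem_support_of_mem_edges hmem
    refine noenter (far a i) _ (fun u v h1 h2 h3 => far_cross a (by omega) u v h1 h2 h3) w
      (fun h => hx (hfar _ _ h)) h0 _ h1 ?_
    exact ⟨⟨j, hj⟩, by simp; omega, P_succ a hj⟩
  have hdeg : ∀ i, i + 1 < k → degPlus (spider L k) w (P a (i + 1)) = 2 + T i + T (i + 1) := by
    intro i hi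
    have hN : (spider L k).neighborFinset (P a (i + 1)) = {P a i, P a (i + 2)} := by
      ext v
      rw [SimpleGraph.mem_neighborFinset, Finset.mem_insert, Finset.mem_singleton]
      constructor
      · intro h
        rw [P_succ a (by omega)] at h
        cases v with
        | none =>
          have h0 := adj_none.mp h
          simp only at h0
          subst h0
          exact Or.inl rfl
        | some v =>
          obtain ⟨b, l⟩ := v
          obtain ⟨hab, h'⟩ := adj_some.mp h
          subst hab
          rcases h' with h' | h'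
          · right
            rw [show i + 2 = (i + 1) + 1 by rfl, P_succ a hi]
            congr 2
            exact Fin.ext h'.symm
          · left
            simp only at h'
            subst h'
            rw [P_succ a l.isLt]
      · rintro (rfl | rfl)
        · exact P_adj a (by omega)
        · exact (P_adj a hi).symm
    have hne : (P a i : Option (Fin L × Fin k)) ≠ P a (i + 2) := by
      rw [show i + 2 = (i + 1) + 1 by rfl, P_succ a hi]
      cases i with
      | zero => simp [P]
      | succ i =>
        rw [P_succ a (by omega)]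
        intro h
        have := congrArg (fun o => o.map (fun p => p.2.val)) h
        simp at this
        omega
    unfold degPlus
    rw [hN, Finset.sum_pair hne, hT]
    simp only
    rw [show s(P a (i + 1), P a (i + 2)) = s((P a (i + 1 + 1) : Option (Fin L × Fin k)), P a (i + 1))
      from Sym2.eq_swap]
    ring
  have hne2 : ∀ i, i + 2 < k → T i ≠ T (i + 2) := by
    intro i hi h
    have h1 := hw _ _ (P_adj (k := k) a (show i + 1 < k by omega))
    rw [hdeg (i + 1) (by omega), hdeg i (by omega)] at h1
    apply h1
    rw [show i + 1 + 1 = i + 2 by rfl, ← h]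
    ring
  have hpos : ∀ i, i + 2 < k → 2 ≤ T i := by
    intro i hi
    by_contra hlt
    obtain ⟨r, hr⟩ := heven i (by omega)
    have h0 : T i = 0 := by omega
    have h2 := hzero i (i + 2) (by omega) hi h0
    exact hne2 i hi (h0.trans h2.symm)
  have hsix : ∀ i, i + 4 < k → 6 ≤ T i + T (i + 2) := by
    intro i hi
    have h1 := hpos i (by omega)
    have h2 := hpos (i + 2) (by omega)
    have h3 := hne2 i (by omega)
    obtain ⟨r, hr⟩ := heven i (by omega)
    obtain ⟨q, hq⟩ := heven (i + 2) (by omega)
    omega
  have hblock : ∀ b, b ≤ s → 12 * b ≤ ∑ i ∈ Finset.range (4 * b), T i := by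
    intro b
    induction b with
    | zero => intro _; simp
    | succ b ih =>
      intro hb
      have h1 := ih (by omega)
      have h2 : 6 ≤ T (4 * b) + T (4 * b + 2) := hsix (4 * b) (by omega)
      have h3 : 6 ≤ T (4 * b + 1) + T (4 * b + 3) := hsix (4 * b + 1) (by omega)
      have hs : ∑ i ∈ Finset.range (4 * (b + 1)), T i = ∑ i ∈ Finset.range (4 * b), T i
          + T (4 * b) + T (4 * b + 1) + T (4 * b + 2) + T (4 * b + 3) := by
        rw [show 4 * (b + 1) = 4 * b + 1 + 1 + 1 + 1 by ring, Finset.sum_range_succ,
          Finset.sum_range_succ, Finset.sum_range_succ, Finset.sum_range_succ]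
      rw [hs]
      omega
  calc 12 * s ≤ ∑ i ∈ Finset.range (4 * s), T i := hblock s le_rfl
    _ ≤ ∑ i ∈ Finset.range k, T i := by
      apply Finset.sum_le_sum_of_subset
      intro i hi
      rw [Finset.mem_range] at hi ⊢
      omega

lemma edge_injOn {L k : ℕ} : Set.InjOn
    (fun p : Fin L × Fin k => s((P p.1 (p.2.val + 1) : Option (Fin L × Fin k)), P p.1 p.2.val))
    Set.univ := by
  rintro ⟨a, i⟩ _ ⟨b, j⟩ _ h
  simp only at h
  rw [P_succ a i.isLt, P_succ b j.isLt, Sym2.eq_iff] at h
  rcases h with ⟨h, _⟩ | ⟨h, h'⟩
  · simpa using h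
  · exfalso
    have hP : ∀ (c : Fin L) (l : ℕ) (d : Fin L) (q : Fin k),
        (P c l : Option (Fin L × Fin k)) = some (d, q) → q.val + 1 = l := by
      intro c l d q he
      cases l with
      | zero => simp [P] at he
      | succ l =>
        by_cases hl : l < k
        · rw [P_succ c hl] at he
          have := congrArg (fun o => o.map (fun p => p.2.val)) he
          simp at this
          omega
        · simp [P, hl] at he
    have h1 := hP b j.val a i h.symm
    have h2 := hP a i.val b j h'
    omega

lemma card_edges {L k : ℕ} [DecidableRel (spider L k).Adj] :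
    (spider L k).edgeFinset.card ≤ L * k := by
  have h1 : (spider L k).edgeFinset ⊆ (Finset.univ : Finset (Fin L × Fin k)).image
      (fun p => s((P p.1 (p.2.val + 1) : Option (Fin L × Fin k)), P p.1 p.2.val)) := by
    intro e he
    induction e using Sym2.ind with
    | _ u v =>
      have huv : (spider L k).Adj u v := by simpa using he
      rw [Finset.mem_image]
      have key : ∀ (a : Fin L) (i : Fin k) (v : Option (Fin L × Fin k)),
          (spider L k).Adj (some (a, i)) v → ∃ p ∈ (Finset.univ : Finset (Fin L × Fin k)),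
          s((P p.1 (p.2.val + 1) : Option (Fin L × Fin k)), P p.1 p.2.val) = s(some (a, i), v) := by
        intro a i v h
        cases v with
        | none =>
          have h0 := adj_none.mp h
          refine ⟨(a, i), Finset.mem_univ _, ?_⟩
          have e1 : (P a i.val : Option (Fin L × Fin k)) = none := by rw [h0]; rfl
          simp only
          rw [P_succ a i.isLt, e1]
        | some v =>
          obtain ⟨b, l⟩ := v
          obtain ⟨hab, h'⟩ := adj_some.mp h
          subst hab
          rcases h' with h' | h'
          · refine ⟨(a, l), Finset.mem_univ _, ?_⟩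
            have e1 : (P a l.val : Option (Fin L × Fin k)) = some (a, i) := by
              rw [← h']; exact P_succ a i.isLt
            simp only
            rw [P_succ a l.isLt, e1]
            exact Sym2.eq_swap
          · refine ⟨(a, i), Finset.mem_univ _, ?_⟩
            have e1 : (P a i.val : Option (Fin L × Fin k)) = some (a, l) := by
              rw [← h']; exact P_succ a l.isLt
            simp only
            rw [P_succ a i.isLt, e1]
      cases u with
      | some u => exact key u.1 u.2 v huv
      | none =>
        cases v with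
        | none => exact absurd huv (spider L k).irrefl
        | some v =>
          obtain ⟨p, hp, he⟩ := key v.1 v.2 none huv.symm
          exact ⟨p, hp, he.trans Sym2.eq_swap⟩
  calc (spider L k).edgeFinset.card ≤ _ := Finset.card_le_card h1
    _ ≤ (Finset.univ : Finset (Fin L × Fin k)).card := Finset.card_image_le
    _ = L * k := by simp

lemma walk_bound {s : ℕ} [DecidableRel (spider (s + 2) (4 * s + 2)).Adj]
    {x y : Option (Fin (s + 2) × Fin (4 * s + 2))}
    (w : (spider (s + 2) (4 * s + 2)).Walk x y)
    (hw : Irregularising (spider (s + 2) (4 * s + 2)) w) : 12 * s * s ≤ w.length := by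
  classical
  let good : Finset (Fin (s + 2)) := Finset.univ.filter (fun a => ¬ far a 0 x ∧ ¬ far a 0 y)
  have hbad : ∀ z : Option (Fin (s + 2) × Fin (4 * s + 2)),
      (Finset.univ.filter (fun a : Fin (s + 2) => far a 0 z)).card ≤ 1 := by
    intro z
    rw [Finset.card_le_one]
    intro a ha b hb
    rw [Finset.mem_filter] at ha hb
    obtain ⟨j, _, h1⟩ := ha.2
    obtain ⟨l, _, h2⟩ := hb.2
    rw [h1] at h2
    simp at h2
    exact h2.1
  have hgood : s ≤ good.card := by
    have h1 : (Finset.univ : Finset (Fin (s + 2))) ⊆ good ∪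
        ((Finset.univ.filter (fun a : Fin (s + 2) => far a 0 x)) ∪
         (Finset.univ.filter (fun a : Fin (s + 2) => far a 0 y))) := by
      intro a _
      simp only [good, Finset.mem_union, Finset.mem_filter, Finset.mem_univ, true_and]
      tauto
    have h2 := Finset.card_le_card h1
    have h3 := Finset.card_union_le good
        ((Finset.univ.filter (fun a : Fin (s + 2) => far a 0 x)) ∪
         (Finset.univ.filter (fun a : Fin (s + 2) => far a 0 y)))
    have h4 := Finset.card_union_le (Finset.univ.filter (fun a : Fin (s + 2) => far a 0 x))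
         (Finset.univ.filter (fun a : Fin (s + 2) => far a 0 y))
    have h5 := hbad x
    have h6 := hbad y
    rw [Finset.card_univ, Fintype.card_fin] at h2
    omega
  have h1 : ∑ e ∈ (good ×ˢ (Finset.univ : Finset (Fin (4 * s + 2)))).image
      (fun p => s((P p.1 (p.2.val + 1) : Option (Fin (s + 2) × Fin (4 * s + 2))), P p.1 p.2.val)),
      w.edges.count e ≤ w.edges.length := sum_count_le _ _
  rw [Finset.sum_image (fun p _ q _ h => edge_injOn (Set.mem_univ _) (Set.mem_univ _) h),
    Finset.sum_product, Walk.length_edges] at h1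
  have h2 : ∀ a ∈ good, 12 * s ≤ ∑ i : Fin (4 * s + 2),
      w.edges.count s((P a (i.val + 1) : Option (Fin (s + 2) × Fin (4 * s + 2))), P a i.val) := by
    intro a ha
    have h3 := (Finset.mem_filter.mp ha).2
    have h4 := leg_bound w hw a h3.1 h3.2 s rfl
    rw [Finset.sum_range] at h4
    exact h4
  have h3 := Finset.sum_le_sum h2
  rw [Finset.sum_const, smul_eq_mul] at h3
  calc 12 * s * s = s * (12 * s) := by ring
    _ ≤ good.card * (12 * s) := Nat.mul_le_mul_right _ hgood
    _ ≤ _ := h3
    _ ≤ w.length := h1

/-- The constant `3` cannot be lowered: for every `ε > 0` there is a finite connected graph on at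
least three vertices all of whose irregularising walks have length at least `(3 - ε) m`. -/
theorem result (ε : ℝ) (hε : 0 < ε) :
    ∃ (V : Type) (_ : Fintype V) (_ : DecidableEq V) (G : SimpleGraph V) (_ : DecidableRel G.Adj),
      G.Connected ∧ 3 ≤ Fintype.card V ∧
      ∀ (x y : V) (w : G.Walk x y), Irregularising G w →
        (3 - ε) * (G.edgeFinset.card : ℝ) ≤ (w.length : ℝ) := by
  classical
  obtain ⟨s, hs⟩ := exists_nat_gt (21 / (2 * ε))
  have hs0 : 0 < (s : ℝ) := lt_trans (by positivity) hs
  have hs1 : 1 ≤ (s : ℝ) := by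
    have : 0 < s := by exact_mod_cast hs0
    exact_mod_cast this
  refine ⟨Option (Fin (s + 2) × Fin (4 * s + 2)), inferInstance, inferInstance,
    spider (s + 2) (4 * s + 2), inferInstance, conn, ?_, ?_⟩
  · simp only [Fintype.card_option, Fintype.card_prod, Fintype.card_fin]
    nlinarith
  · intro x y w hw
    have h1 : (12 * s * s : ℝ) ≤ w.length := by exact_mod_cast walk_bound w hw
    have h2 : ((spider (s + 2) (4 * s + 2)).edgeFinset.card : ℝ) ≤ (s + 2) * (4 * s + 2) := by
      exact_mod_cast card_edges (L := s + 2) (k := 4 * s + 2)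
    by_cases h3 : 3 - ε ≤ 0
    · have h4 : (0 : ℝ) ≤ ((spider (s + 2) (4 * s + 2)).edgeFinset.card : ℝ) := by positivity
      have h5 : (0 : ℝ) ≤ w.length := by positivity
      nlinarith
    · push Not at h3
      have h4 : (3 - ε) * ((spider (s + 2) (4 * s + 2)).edgeFinset.card : ℝ)
          ≤ (3 - ε) * ((s + 2) * (4 * s + 2)) := mul_le_mul_of_nonneg_left h2 h3.le
      have h5 : 21 < 2 * ε * s := by
        rw [div_lt_iff₀ (by positivity)] at hs
        linarith
      have h6 : 21 * (2 * (s : ℝ)) ≤ 2 * ε * s * (2 * s) := by nlinarith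
      have h7 : (3 - ε) * (((s : ℝ) + 2) * (4 * s + 2)) ≤ 12 * s * s := by
        have h8 : 0 ≤ ε * (10 * (s : ℝ) + 4) := by positivity
        nlinarith
      linarith

end Pool.Agent.Results.MP_00d8cd_co.ThreeIsSharp
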